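import Mathlib

/-!
# Splitting a digraph into an undirected graph

Every vertex `v` of a digraph `D` on `W` becomes a path `(v,0) - (v,1) - (v,2)`, an arc `v → w`
becomes the edge `(v,2) - (w,0)`.
-/

namespace Pool.Agent.R25

open SimpleGraph

/-- `v` is reached from `s` by iterating `F`. -/
def Reach {V : Type*} (F : V → V) (s v : V) : Prop := ∃ k : ℕ, F^[k] s = v

theorem Reach.refl {V : Type*} (F : V → V) (s : V) : Reach F s s := ⟨0, rfl⟩

theorem Reach.step {V : Type*} {F : V → V} {s v : V} (h : Reach F s v) : Reach F s (F v) := by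
  obtain ⟨k, rfl⟩ := h
  exact ⟨k + 1, by rw [Function.iterate_succ_apply']⟩

theorem Reach.step' {V : Type*} {F : V → V} {s v w : V} (h : Reach F s v) (hw : F v = w) :
    Reach F s w := hw ▸ h.step

theorem exists_cycle {V : Type*} [Fintype V] (G : SimpleGraph V) (F : V → V)
    (hadj : ∀ v, G.Adj v (F v)) (s : V) (hs : ∀ v, Reach F s v) (hs' : ∃ v, F v = s)
    (n : ℕ) (hn : Fintype.card V = n) (h2 : 2 ≤ n) :
    ∃ H : SimpleGraph V, H ≤ G ∧ Nonempty (H ≃g cycleGraph n) := by
  classical
  have hsurj : Function.Surjective F := by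
    intro v
    obtain ⟨k, hk⟩ := hs v
    cases k with
    | zero =>
      obtain ⟨w, hw⟩ := hs'
      exact ⟨w, by rw [hw]; exact hk⟩
    | succ k => exact ⟨F^[k] s, by rw [← Function.iterate_succ_apply' F k s]; exact hk⟩
  have hbij : Function.Bijective F := Finite.surjective_iff_bijective.1 hsurj
  have hper : s ∈ Function.periodicPts F := by
    rw [← Function.minimalPeriod_pos_iff_mem_periodicPts]
    have := (Equiv.ofBijective F hbij)
    by_contra hcon
    have h0 : Function.minimalPeriod F s = 0 := by omega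
    have : Function.Injective fun k : ℕ => F^[k] s := by
      intro a b hab
      have := Function.minimalPeriod_eq_zero_iff_notMem_periodicPts.1 h0
      by_contra hne
      apply this
      rcases lt_or_gt_of_ne hne with h | h
      · refine Function.mk_mem_periodicPts (n := b - a) (by omega) ?_
        have h1 : F^[a] (F^[b - a] s) = F^[a] s := by
          rw [← Function.iterate_add_apply, Nat.add_sub_cancel' h.le]; exact hab.symm
        exact (hbij.1.iterate a) h1
      · refine Function.mk_mem_periodicPts (n := a - b) (by omega) ?_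
        have h1 : F^[b] (F^[a - b] s) = F^[b] s := by
          rw [← Function.iterate_add_apply, Nat.add_sub_cancel' h.le]; exact hab
        exact (hbij.1.iterate b) h1
    exact not_injective_infinite_finite _ this
  have hpos : 0 < Function.minimalPeriod F s :=
    Function.minimalPeriod_pos_of_mem_periodicPts hper
  set p := Function.minimalPeriod F s with hp
  have hφinj : Function.Injective fun k : Fin p => F^[k.1] s := by
    intro a b hab
    exact Fin.ext (Function.iterate_injOn_Iio_minimalPeriod (f := F) (x := s) a.2 b.2 hab)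
  have hφsurj : Function.Surjective fun k : Fin p => F^[k.1] s := by
    intro v
    obtain ⟨k, hk⟩ := hs v
    refine ⟨⟨k % p, Nat.mod_lt _ hpos⟩, ?_⟩
    show F^[k % p] s = v
    rw [hp, Function.iterate_mod_minimalPeriod_eq, hk]
  have hcard : p = n := by
    have := Fintype.card_of_bijective (f := fun k : Fin p => F^[k.1] s) ⟨hφinj, hφsurj⟩
    rw [Fintype.card_fin] at this
    omega
  have hpn : F^[n] s = s := by
    rw [← hcard, hp]; exact Function.iterate_minimalPeriod
  subst hcard
  let e : Fin p ≃ V := Equiv.ofBijective _ ⟨hφinj, hφsurj⟩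
  refine ⟨(cycleGraph p).map e.toEmbedding, ?_, ⟨(SimpleGraph.Iso.map e (cycleGraph p)).symm⟩⟩
  have key : ∀ a b : Fin p, (b - a).val = 1 → G.Adj (e a) (e b) := by
    intro a b hab
    have hb : e b = F (e a) := by
      show F^[b.1] s = F (F^[a.1] s)
      rw [← Function.iterate_succ_apply' F a.1 s]
      rw [Fin.val_sub] at hab
      have ha := a.2
      have hb := b.2
      by_cases h : b.1 = a.1 + 1
      · rw [h]
      · have h3 : a.1 + 1 = p ∧ b.1 = 0 := by
          rcases Nat.lt_or_ge (p - a.1 + b.1) p with h4 | h4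
          · rw [Nat.mod_eq_of_lt h4] at hab; omega
          · have h5 : (p - a.1 + b.1) % p = (p - a.1 + b.1) - p := by
              rw [Nat.mod_eq_sub_mod h4, Nat.mod_eq_of_lt (by omega)]
            omega
        rw [h3.2]
        show s = F^[a.1 + 1] s
        rw [h3.1, hpn]
    rw [hb]
    exact hadj _
  rw [SimpleGraph.map_le_iff_le_comap]
  intro a b hab
  rw [cycleGraph_adj'] at hab
  rcases hab with h | h
  · exact (key b a h).symm
  · exact key a b h

variable {W : Type*}

/-- The undirected graph of a digraph. -/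
def split (Arc : W → W → Prop) : SimpleGraph (W × Fin 3) where
  Adj x y := ((x.1 = y.1 ∧ x.2.val + 1 = y.2.val) ∨ (x.2 = 2 ∧ y.2 = 0 ∧ Arc x.1 y.1)) ∨
    ((y.1 = x.1 ∧ y.2.val + 1 = x.2.val) ∨ (y.2 = 2 ∧ x.2 = 0 ∧ Arc y.1 x.1))
  symm := ⟨fun _ _ h => h.symm⟩
  loopless := ⟨fun x h => by
    rcases h with (h | h) | (h | h)
    · omega
    · rw [h.1] at h; exact absurd h.2.1 (by decide)
    · omega
    · rw [h.1] at h; exact absurd h.2.1 (by decide)⟩

theorem split_of_reach [Fintype W] (Arc : W → W → Prop) (f : W → W) (hf : ∀ v, Arc v (f v))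
    (s : W) (hs : ∀ v, Reach f s v) (hs' : ∃ v, f v = s) (n : ℕ)
    (hn : Fintype.card (W × Fin 3) = n) (h2 : 2 ≤ n) :
    ∃ H : SimpleGraph (W × Fin 3), H ≤ split Arc ∧ Nonempty (H ≃g cycleGraph n) := by
  classical
  let F : W × Fin 3 → W × Fin 3 := fun x =>
    if x.2 = 0 then (x.1, 1) else if x.2 = 1 then (x.1, 2) else (f x.1, 0)
  have F0 : ∀ v, F (v, 0) = (v, 1) := fun v => rfl
  have F1 : ∀ v, F (v, 1) = (v, 2) := fun v => rfl
  have F2 : ∀ v, F (v, 2) = (f v, 0) := fun v => rfl
  have h3 : ∀ j : Fin 3, j = 0 ∨ j = 1 ∨ j = 2 := by decide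
  refine exists_cycle (split Arc) F ?_ (s, 0) ?_ ?_ n hn h2
  · rintro ⟨v, j⟩
    rcases h3 j with rfl | rfl | rfl
    · rw [F0]; exact Or.inl (Or.inl ⟨rfl, rfl⟩)
    · rw [F1]; exact Or.inl (Or.inl ⟨rfl, rfl⟩)
    · rw [F2]; exact Or.inl (Or.inr ⟨rfl, rfl, hf v⟩)
  · have h0 : ∀ k, Reach F (s, 0) (f^[k] s, 0) := by
      intro k
      induction k with
      | zero => exact Reach.refl _ _
      | succ k ih =>
        rw [Function.iterate_succ_apply']
        exact ((ih.step' (F0 _)).step' (F1 _)).step' (F2 _)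
    rintro ⟨v, j⟩
    obtain ⟨k, hk⟩ := hs v
    have h4 : Reach F (s, 0) (v, 0) := hk ▸ h0 k
    rcases h3 j with rfl | rfl | rfl
    · exact h4
    · exact h4.step' (F0 _)
    · exact (h4.step' (F0 _)).step' (F1 _)
  · obtain ⟨v, hv⟩ := hs'
    exact ⟨(v, 2), by rw [F2, hv]⟩

theorem closed_of_reachable {V : Type*} {H : SimpleGraph V} {S : Set V}
    (hS : ∀ x y, x ∈ S → H.Adj x y → y ∈ S) {x y : V} (h : H.Reachable x y) (hx : x ∈ S) :
    y ∈ S := by
  obtain ⟨p⟩ := h
  induction p with
  | nil => exact hx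
  | cons hab _ ih => exact ih (hS _ _ hx hab)

/-- From a connected subgraph of `split Arc` in which every vertex has exactly two neighbours one
gets a transitive successor function along the arcs. -/
theorem succ_of_split [Finite W] (Arc : W → W → Prop) (H : SimpleGraph (W × Fin 3))
    (hH : H ≤ split Arc) (hconn : H.Connected)
    (two : ∀ x, ∃ a b, a ≠ b ∧ ∀ y, H.Adj x y ↔ y = a ∨ y = b) :
    ∃ f : W → W, Function.Injective f ∧ (∀ v, Arc v (f v)) ∧
      ∀ B : Set W, B.Nonempty → (∀ v ∈ B, f v ∈ B) → B = Set.univ := by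
  classical
  have h3 : ∀ j : Fin 3, j = 0 ∨ j = 1 ∨ j = 2 := by decide
  -- neighbours of the middle vertices
  have hmid : ∀ v, H.Adj (v, 1) (v, 0) ∧ H.Adj (v, 1) (v, 2) := by
    intro v
    obtain ⟨a, b, hab, h⟩ := two (v, 1)
    have hnb : ∀ y, H.Adj (v, 1) y → y = (v, 0) ∨ y = (v, 2) := by
      rintro ⟨w, j⟩ hy
      rcases hH hy with (h1 | h1) | (h1 | h1)
      · right
        obtain ⟨h4, h5⟩ := h1
        simp only at h4 h5
        rw [← h4]
        have : j = 2 := by ext; simp at h5 ⊢; omega
        rw [this]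
      · exact absurd h1.1 (by simp)
      · left
        obtain ⟨h4, h5⟩ := h1
        simp only at h4 h5
        rw [h4]
        have : j = 0 := by ext; simp at h5 ⊢; omega
        rw [this]
      · exact absurd h1.2.1 (by simp)
    have ha := hnb a ((h a).2 (Or.inl rfl))
    have hb := hnb b ((h b).2 (Or.inr rfl))
    rcases ha with ha | ha <;> rcases hb with hb | hb
    · exact absurd (ha.trans hb.symm) hab
    · exact ⟨(h _).2 (Or.inl ha.symm), (h _).2 (Or.inr hb.symm)⟩
    · exact ⟨(h _).2 (Or.inr hb.symm), (h _).2 (Or.inl ha.symm)⟩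
    · exact absurd (ha.trans hb.symm) hab
  -- a vertex with a known neighbour has exactly one other
  have hother : ∀ x a, H.Adj x a → ∃ b, b ≠ a ∧ ∀ y, H.Adj x y ↔ y = a ∨ y = b := by
    intro x a hxa
    obtain ⟨c, d, hcd, h⟩ := two x
    rcases (h a).1 hxa with rfl | rfl
    · exact ⟨d, hcd.symm, h⟩
    · exact ⟨c, hcd, fun y => by rw [h y, or_comm]⟩
  have hout : ∀ v, ∃ w, Arc v w ∧ ∀ y, H.Adj (v, 2) y ↔ y = (v, 1) ∨ y = (w, 0) := by
    intro v
    obtain ⟨⟨w, j⟩, hb, h⟩ := hother (v, 2) (v, 1) (hmid v).2.symm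
    have hadj : H.Adj (v, 2) (w, j) := (h _).2 (Or.inr rfl)
    rcases hH hadj with (h1 | h1) | (h1 | h1)
    · obtain ⟨h4, h5⟩ := h1
      simp only at h5
      have := j.2
      simp at h5
      omega
    · obtain ⟨-, h5, h6⟩ := h1
      simp only at h5 h6
      subst h5
      exact ⟨w, h6, h⟩
    · obtain ⟨h4, h5⟩ := h1
      simp only at h4 h5
      exfalso
      apply hb
      rw [h4]
      have : j = 1 := by ext; simp at h5 ⊢; omega
      rw [this]
    · exact absurd h1.2.1 (by simp)
  have hin : ∀ w, ∃ v, Arc v w ∧ ∀ y, H.Adj (w, 0) y ↔ y = (w, 1) ∨ y = (v, 2) := by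
    intro w
    obtain ⟨⟨v, j⟩, hb, h⟩ := hother (w, 0) (w, 1) (hmid w).1.symm
    have hadj : H.Adj (w, 0) (v, j) := (h _).2 (Or.inr rfl)
    rcases hH hadj with (h1 | h1) | (h1 | h1)
    · obtain ⟨h4, h5⟩ := h1
      simp only at h4 h5
      exfalso
      apply hb
      rw [← h4]
      have : j = 1 := by ext; simp at h5 ⊢; omega
      rw [this]
    · exact absurd h1.1 (by simp)
    · obtain ⟨h4, h5⟩ := h1
      simp only at h5
      simp at h5
    · obtain ⟨h5, -, h6⟩ := h1
      simp only at h5 h6
      subst h5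
      exact ⟨v, h6, h⟩
  choose f hf1 hf2 using hout
  choose g hg1 hg2 using hin
  have hgf : ∀ v, g (f v) = v := by
    intro v
    have h1 : H.Adj (f v, 0) (v, 2) := ((hf2 v _).2 (Or.inr rfl)).symm
    rcases (hg2 (f v) _).1 h1 with h | h
    · exact absurd (congrArg Prod.snd h) (by simp)
    · exact (congrArg Prod.fst h).symm
  have hinj : Function.Injective f := fun a b hab => by rw [← hgf a, ← hgf b, hab]
  refine ⟨f, hinj, hf1, ?_⟩
  intro B hB hcl
  have hback : ∀ w ∈ B, g w ∈ B := by
    intro w hw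
    have := Fintype.ofFinite W
    have himg : (B.toFinset).image f = B.toFinset := by
      apply Finset.eq_of_subset_of_card_le
      · intro x hx
        obtain ⟨y, hy, rfl⟩ := Finset.mem_image.1 hx
        rw [Set.mem_toFinset] at hy ⊢
        exact hcl y hy
      · rw [Finset.card_image_of_injective _ hinj]
    have hw' : w ∈ (B.toFinset).image f := by rw [himg, Set.mem_toFinset]; exact hw
    obtain ⟨y, hy, rfl⟩ := Finset.mem_image.1 hw'
    rw [hgf]
    exact Set.mem_toFinset.1 hy
  have hS : ∀ x y : W × Fin 3, x ∈ {z : W × Fin 3 | z.1 ∈ B} → H.Adj x y →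
      y ∈ {z : W × Fin 3 | z.1 ∈ B} := by
    rintro ⟨v, j⟩ y hx hxy
    have hv : v ∈ B := hx
    rcases h3 j with rfl | rfl | rfl
    · rcases (hg2 v y).1 hxy with rfl | rfl
      · exact hv
      · exact hback v hv
    · obtain ⟨a, b, hab, h⟩ := two (v, 1)
      have h0 := (h _).1 (hmid v).1
      have h2 := (h _).1 (hmid v).2
      have hy := (h y).1 hxy
      have : y = (v, 0) ∨ y = (v, 2) := by
        rcases h0 with h0 | h0 <;> rcases h2 with h2 | h2
        · exact absurd (congrArg Prod.snd (h0.trans h2.symm)) (by simp)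
        · rcases hy with hy | hy
          · left; rw [hy, h0]
          · right; rw [hy, h2]
        · rcases hy with hy | hy
          · right; rw [hy, h2]
          · left; rw [hy, h0]
        · exact absurd (congrArg Prod.snd (h0.trans h2.symm)) (by simp)
      rcases this with rfl | rfl <;> exact hv
    · rcases (hf2 v y).1 hxy with rfl | rfl
      · exact hv
      · exact hcl v hv
  obtain ⟨b, hb⟩ := hB
  ext w
  simp only [Set.mem_univ, iff_true]
  exact closed_of_reachable hS (hconn.preconnected (b, 0) (w, 0)) hb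

/-- A copy of a cycle graph is connected and every vertex has exactly two neighbours. -/
theorem cycle_facts {V : Type*} {n : ℕ} (hn : 3 ≤ n) (H : SimpleGraph V)
    (e : H ≃g cycleGraph n) :
    H.Connected ∧ ∀ x, ∃ a b, a ≠ b ∧ ∀ y, H.Adj x y ↔ y = a ∨ y = b := by
  obtain ⟨m, rfl⟩ : ∃ m, n = m + 3 := ⟨n - 3, by omega⟩
  refine ⟨(Iso.connected_iff e).2 cycleGraph_connected, ?_⟩
  intro x
  refine ⟨e.symm (e x - 1), e.symm (e x + 1), ?_, ?_⟩
  · intro h
    have h1 := e.symm.injective h
    have h2 : (1 : Fin (m + 3)) + 1 = 0 := by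
      have h5 : e x + (1 + 1) = e x + 0 := by
        rw [← add_assoc, ← h1]; simp
      exact add_left_cancel h5
    have h4 := congrArg Fin.val h2
    rw [Fin.val_add] at h4
    simp only [Fin.val_one, Fin.val_zero] at h4
    rw [Nat.mod_eq_of_lt (by omega)] at h4
    omega
  · intro y
    rw [← e.map_adj_iff, ← mem_neighborSet, cycleGraph_neighborSet]
    simp only [Set.mem_insert_iff, Set.mem_singleton_iff]
    constructor
    · rintro (h | h)
      · left; rw [← h]; simp
      · right; rw [← h]; simp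
    · rintro (rfl | rfl)
      · left; simp
      · right; simp

end Pool.Agent.R25
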