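import Mathlib
import Pool.Agent.R25.HamSplit

/-!
# Digraphs with interchangeable wires and their decks

`wArc A In Out L σ` is a digraph consisting of a part `K` and of `m` directed paths (wires) with `L`
vertices each. The last vertex of wire `i` has the label `σ i`. If the number of wire vertices in a
vertex set is smaller than `(m-1) L`, two wires are cut at the same position, and exchanging their
tails turns `σ` into `σ` times a transposition.
-/

namespace Pool.Agent.R25

open SimpleGraph Finset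

/-- Number of vertex sets of size `t` inducing a copy of `F`. -/
noncomputable def dc {V : Type} [Fintype V] (t : ℕ) (G : SimpleGraph V)
    (F : SimpleGraph (Fin t)) : ℕ :=
  Nat.card {S : Finset V // S.card = t ∧ Nonempty (G.induce (S : Set V) ≃g F)}

/-- A bijection which preserves adjacency on `S` induces an isomorphism. -/
theorem induce_iso {V V' : Type} {G : SimpleGraph V} {G' : SimpleGraph V'}
    (θ : V ≃ V') (S : Finset V)
    (h : ∀ x ∈ S, ∀ y ∈ S, G'.Adj (θ x) (θ y) ↔ G.Adj x y) :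
    Nonempty (G.induce (S : Set V) ≃g G'.induce ((S.map θ.toEmbedding : Finset V') : Set V')) := by
  refine ⟨⟨θ.subtypeEquiv fun a => ?_, ?_⟩⟩
  · simp
  · rintro ⟨x, hx⟩ ⟨y, hy⟩
    exact h x hx y hy

theorem dc_iso {V V' : Type} [Fintype V] [Fintype V'] {G : SimpleGraph V} {G' : SimpleGraph V'}
    (θ : G ≃g G') (t : ℕ) (F : SimpleGraph (Fin t)) : dc t G F = dc t G' F := by
  refine Nat.card_congr ?_
  refine (Equiv.finsetCongr θ.toEquiv).subtypeEquiv fun S => ?_
  have h1 : ((Equiv.finsetCongr θ.toEquiv) S).card = S.card := by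
    simp [Equiv.finsetCongr]
  rw [h1]
  obtain ⟨e⟩ := induce_iso (G := G) (G' := G') θ.toEquiv S fun x _ y _ => θ.map_adj_iff
  constructor
  · rintro ⟨h2, ⟨f⟩⟩
    exact ⟨h2, ⟨e.symm.trans f⟩⟩
  · rintro ⟨h2, ⟨f⟩⟩
    exact ⟨h2, ⟨e.trans f⟩⟩

theorem split_iso {W W' : Type} {Arc : W → W → Prop} {Arc' : W' → W' → Prop} (e : W ≃ W')
    (h : ∀ v w, Arc' (e v) (e w) ↔ Arc v w) : Nonempty (split Arc ≃g split Arc') := by
  refine ⟨⟨e.prodCongr (Equiv.refl _), ?_⟩⟩
  rintro ⟨v, r⟩ ⟨w, r'⟩
  simp [split, h]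

variable {K : Type} {m : ℕ}

/-- The arcs of the digraph with wires. -/
def wArc (A : K → K → Prop) (In : K → Fin m → Prop) (Out : Fin m → K → Prop) (L : ℕ)
    (σ : Equiv.Perm (Fin m)) : (K ⊕ (Fin m × Fin L)) → (K ⊕ (Fin m × Fin L)) → Prop
  | .inl k, .inl k' => A k k'
  | .inl k, .inr x => In k x.1 ∧ x.2.val = 0
  | .inr x, .inr y => x.1 = y.1 ∧ x.2.val + 1 = y.2.val
  | .inr x, .inl k => x.2.val + 1 = L ∧ Out (σ x.1) k

/-- Exchange of the tails. -/
def tailSwap (L : ℕ) (τ : Equiv.Perm (Fin m)) (P : ℕ) :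
    (K ⊕ (Fin m × Fin L)) × Fin 3 → (K ⊕ (Fin m × Fin L)) × Fin 3
  | (.inl k, r) => (.inl k, r)
  | (.inr x, r) => if P < 3 * x.2.val + r.val then (.inr (τ x.1, x.2), r) else (.inr x, r)

/-- The vertex is at position `P` of wire `k`. -/
def At {L : ℕ} (k : Fin m) (P : ℕ) : (K ⊕ (Fin m × Fin L)) × Fin 3 → Prop
  | (.inl _, _) => False
  | (.inr x, r) => x.1 = k ∧ 3 * x.2.val + r.val = P

theorem tailSwap_tailSwap {L : ℕ} (τ : Equiv.Perm (Fin m)) (hτ : τ * τ = 1) (P : ℕ)
    (x : (K ⊕ (Fin m × Fin L)) × Fin 3) : tailSwap L τ P (tailSwap L τ P x) = x := by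
  have h : ∀ k, τ (τ k) = k := fun k => by
    rw [← Equiv.Perm.mul_apply, hτ]; rfl
  rcases x with ⟨k | ⟨k, q⟩, r⟩
  · rfl
  · by_cases hP : P < 3 * q.val + r.val
    · simp [tailSwap, hP, h]
    · simp [tailSwap, hP]

/-- The directed half of the adjacency in `split`. -/
def DA {W : Type} (Arc : W → W → Prop) (x y : W × Fin 3) : Prop :=
  (x.1 = y.1 ∧ x.2.val + 1 = y.2.val) ∨ (x.2 = 2 ∧ y.2 = 0 ∧ Arc x.1 y.1)

theorem DA_tailSwap {L : ℕ} (A : K → K → Prop) (In : K → Fin m → Prop) (Out : Fin m → K → Prop)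
    (σ τ : Equiv.Perm (Fin m)) (hτ : τ * τ = 1) (P : ℕ) (hP : P < 3 * L)
    (x y : (K ⊕ (Fin m × Fin L)) × Fin 3) (hx : ∀ k, At k P x → τ k = k)
    (hy : ∀ k, At k P y → τ k = k) (h : DA (wArc A In Out L σ) x y) :
    DA (wArc A In Out L (σ * τ)) (tailSwap L τ P x) (tailSwap L τ P y) := by
  have hττ : ∀ k, τ (τ k) = k := fun k => by
    rw [← Equiv.Perm.mul_apply, hτ]; rfl
  rcases x with ⟨k | ⟨k, q⟩, r⟩ <;> rcases y with ⟨k' | ⟨k', q'⟩, r'⟩
  · rcases h with ⟨h1, h2⟩ | ⟨h1, h2, h3⟩
    · exact Or.inl ⟨h1, h2⟩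
    · exact Or.inr ⟨h1, h2, h3⟩
  · rcases h with ⟨h1, h2⟩ | ⟨h1, h2, h3⟩
    · simp at h1
    · simp only at h1 h2
      subst h2
      obtain ⟨h4, h5⟩ := h3
      simp only at h5
      refine Or.inr ⟨h1, ?_⟩
      have : ¬ P < 3 * q'.val + (0 : Fin 3).val := by rw [h5]; simp
      simp only [tailSwap, this, if_false]
      exact ⟨trivial, h4, h5⟩
  · rcases h with ⟨h1, h2⟩ | ⟨h1, h2, h3⟩
    · simp at h1
    · simp only at h1 h2
      subst h1 h2
      obtain ⟨h4, h5⟩ := h3
      simp only at h4 h5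
      refine Or.inr ?_
      by_cases h6 : P < 3 * q.val + (2 : Fin 3).val
      · simp only [tailSwap, h6, if_true]
        refine ⟨trivial, trivial, h4, ?_⟩
        simp only [Equiv.Perm.mul_apply, hττ]
        exact h5
      · simp only [tailSwap, h6, if_false]
        refine ⟨trivial, trivial, h4, ?_⟩
        have h7 : τ k = k := by
          apply hx
          refine ⟨rfl, ?_⟩
          simp only [Fin.val_two] at h6 ⊢
          omega
        simp only [Equiv.Perm.mul_apply, h7]
        exact h5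
  · have hk : k = k' ∧ 3 * q.val + r.val + 1 = 3 * q'.val + r'.val := by
      rcases h with ⟨h1, h2⟩ | ⟨h1, h2, h3⟩
      · simp only [Sum.inr.injEq, Prod.mk.injEq] at h1 h2
        refine ⟨h1.1, ?_⟩
        rw [← h1.2]; omega
      · simp only at h1 h2
        subst h1 h2
        obtain ⟨h4, h5⟩ := h3
        simp only at h4 h5
        refine ⟨h4, ?_⟩
        simp only [Fin.val_two, Fin.val_zero]
        omega
    obtain ⟨rfl, hpos⟩ := hk
    have key : ∀ a : Fin m, DA (wArc A In Out L (σ * τ)) (.inr (a, q), r) (.inr (a, q'), r') := by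
      intro a
      rcases h with ⟨h1, h2⟩ | ⟨h1, h2, h3⟩
      · simp only [Sum.inr.injEq, Prod.mk.injEq] at h1 h2
        exact Or.inl ⟨by rw [h1.2], h2⟩
      · obtain ⟨h4, h5⟩ := h3
        exact Or.inr ⟨h1, h2, rfl, h5⟩
    by_cases h6 : P < 3 * q.val + r.val
    · have h7 : P < 3 * q'.val + r'.val := by omega
      simp only [tailSwap, h6, h7, if_true]
      exact key _
    · by_cases h7 : P < 3 * q'.val + r'.val
      · have h8 : τ k = k := hx k ⟨rfl, by simp only; omega⟩
        simp only [tailSwap, h6, h7, if_true, if_false, h8]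
        exact key _
      · simp only [tailSwap, h6, h7, if_false]
        exact key _

theorem At_tailSwap {L : ℕ} (τ : Equiv.Perm (Fin m)) (P P' : ℕ)
    (x : (K ⊕ (Fin m × Fin L)) × Fin 3) (k : Fin m) (hP : P' ≤ P) :
    At k P' (tailSwap L τ P x) ↔ At k P' x := by
  rcases x with ⟨j | ⟨j, q⟩, r⟩
  · rfl
  · by_cases h : P < 3 * q.val + r.val
    · simp only [tailSwap, h, if_true, At]
      constructor <;> rintro ⟨-, h2⟩ <;> omega
    · simp only [tailSwap, h, if_false]

theorem tailSwap_of_At {L : ℕ} (τ : Equiv.Perm (Fin m)) (P P' : ℕ)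
    (x : (K ⊕ (Fin m × Fin L)) × Fin 3) (k : Fin m) (hP : P' ≤ P) (h : At k P' x) :
    tailSwap L τ P x = x := by
  rcases x with ⟨j | ⟨j, q⟩, r⟩
  · rfl
  · have : ¬ P < 3 * q.val + r.val := by
      have h2 : 3 * q.val + r.val = P' := h.2
      omega
    simp only [tailSwap, this, if_false]

theorem adj_tailSwap {L : ℕ} (A : K → K → Prop) (In : K → Fin m → Prop) (Out : Fin m → K → Prop)
    (σ τ : Equiv.Perm (Fin m)) (hτ : τ * τ = 1) (P : ℕ) (hP : P < 3 * L)
    (x y : (K ⊕ (Fin m × Fin L)) × Fin 3) (hx : ∀ k, At k P x → τ k = k)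
    (hy : ∀ k, At k P y → τ k = k) :
    (split (wArc A In Out L (σ * τ))).Adj (tailSwap L τ P x) (tailSwap L τ P y) ↔
      (split (wArc A In Out L σ)).Adj x y := by
  have h1 : ∀ (σ : Equiv.Perm (Fin m)) (x y : (K ⊕ (Fin m × Fin L)) × Fin 3),
      (∀ k, At k P x → τ k = k) → (∀ k, At k P y → τ k = k) →
      (split (wArc A In Out L σ)).Adj x y →
      (split (wArc A In Out L (σ * τ))).Adj (tailSwap L τ P x) (tailSwap L τ P y) := by
    intro σ x y hx hy h
    rcases h with h | h
    · exact Or.inl (DA_tailSwap A In Out σ τ hτ P hP x y hx hy h)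
    · exact Or.inr (DA_tailSwap A In Out σ τ hτ P hP y x hy hx h)
  refine ⟨fun h => ?_, h1 σ x y hx hy⟩
  have h2 := h1 (σ * τ) _ _ (fun k hk => hx k ((At_tailSwap τ P P x k le_rfl).1 hk))
    (fun k hk => hy k ((At_tailSwap τ P P y k le_rfl).1 hk)) h
  rw [tailSwap_tailSwap τ hτ, tailSwap_tailSwap τ hτ, mul_assoc, hτ, mul_one] at h2
  exact h2

/-- The exchange of tails as a permutation. -/
def tailPerm (K : Type) (L : ℕ) (τ : Equiv.Perm (Fin m)) (hτ : τ * τ = 1) (P : ℕ) :
    Equiv.Perm ((K ⊕ (Fin m × Fin L)) × Fin 3) where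
  toFun := tailSwap L τ P
  invFun := tailSwap L τ P
  left_inv := tailSwap_tailSwap τ hτ P
  right_inv := tailSwap_tailSwap τ hτ P

section choice

open Classical in
/-- A transposition of two elements of the set (if there are two). -/
noncomputable def sw (s : Finset (Fin m)) : Equiv.Perm (Fin m) :=
  if h : ∃ a b, a ∈ s ∧ b ∈ s ∧ a ≠ b then
    Equiv.swap h.choose h.choose_spec.choose
  else 1

theorem sw_mul (s : Finset (Fin m)) : sw s * sw s = 1 := by
  unfold sw
  split_ifs with h
  · exact Equiv.swap_mul_self _ _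
  · simp

theorem sw_sign (s : Finset (Fin m)) (hs : 1 < s.card) : Equiv.Perm.sign (sw s) = -1 := by
  obtain ⟨a, ha, b, hb, hab⟩ := Finset.one_lt_card.1 hs
  have h : ∃ a b, a ∈ s ∧ b ∈ s ∧ a ≠ b := ⟨a, b, ha, hb, hab⟩
  unfold sw
  rw [dif_pos h]
  exact Equiv.Perm.sign_swap h.choose_spec.choose_spec.2.2

theorem sw_fix (s : Finset (Fin m)) (k : Fin m) (hk : k ∉ s) : sw s k = k := by
  unfold sw
  split_ifs with h
  · apply Equiv.swap_apply_of_ne_of_ne
    · rintro rfl; exact hk h.choose_spec.choose_spec.1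
    · rintro rfl; exact hk h.choose_spec.choose_spec.2.1
  · rfl

variable {L : ℕ}

open Classical in
/-- The wires that miss position `P` in `S`. -/
noncomputable def miss (S : Finset ((K ⊕ (Fin m × Fin L)) × Fin 3)) (P : ℕ) :
    Finset (Fin m) := Finset.univ.filter fun k => ∀ x ∈ S, ¬ At k P x

/-- The first position missed by two wires. -/
noncomputable def pos (S : Finset ((K ⊕ (Fin m × Fin L)) × Fin 3)) : ℕ :=
  sInf {P | P < 3 * L ∧ 1 < (miss S P).card}

theorem exists_pos [Finite K] (S : Finset ((K ⊕ (Fin m × Fin L)) × Fin 3))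
    (hS : S.card < (m - 1) * (3 * L)) : ∃ P, P < 3 * L ∧ 1 < (miss S P).card := by
  classical
  by_contra hcon
  push Not at hcon
  -- all but one wire present at every position
  have h1 : ∀ P ∈ Finset.range (3 * L), m - 1 ≤ ((miss S P)ᶜ).card := by
    intro P hP
    have := hcon P (Finset.mem_range.1 hP)
    rw [Finset.card_compl, Fintype.card_fin]
    omega
  have h2 : ∑ P ∈ Finset.range (3 * L), ((miss S P)ᶜ).card ≤ S.card := by
    have h3 : ∑ P ∈ Finset.range (3 * L), ((miss S P)ᶜ).card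
        = ((Finset.range (3 * L)).sigma fun P => (miss S P)ᶜ).card := by
      rw [Finset.card_sigma]
    rw [h3]
    have h4 : ∀ z ∈ (Finset.range (3 * L)).sigma fun P => (miss S P)ᶜ,
        ∃ x ∈ S, At z.2 z.1 x := by
      intro z hz
      rw [Finset.mem_sigma] at hz
      have := hz.2
      simp only [miss, Finset.mem_compl, Finset.mem_filter, Finset.mem_univ, true_and,
        not_forall, not_not] at this
      obtain ⟨x, hx, h⟩ := this
      exact ⟨x, hx, h⟩
    rcases ((Finset.range (3 * L)).sigma fun P => (miss S P)ᶜ).eq_empty_or_nonempty with h0 | h0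
    · rw [h0]; simp
    obtain ⟨z0, hz0⟩ := h0
    have : Nonempty ((K ⊕ (Fin m × Fin L)) × Fin 3) := ⟨(h4 z0 hz0).choose⟩
    choose! g hg1 hg2 using h4
    refine Finset.card_le_card_of_injOn g (fun z hz => hg1 z hz) ?_
    intro z hz z' hz' hzz
    have h5 := hg2 z hz
    have h6 := hg2 z' hz'
    rw [hzz] at h5
    generalize g z' = x at h5 h6
    rcases x with ⟨j | ⟨j, q⟩, r⟩
    · exact h5.elim
    · obtain ⟨P, k⟩ := z
      obtain ⟨P', k'⟩ := z'
      obtain ⟨h7, h8⟩ := h5
      obtain ⟨h9, h10⟩ := h6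
      simp only at h7 h8 h9 h10
      subst h7 h8 h10
      subst h9
      rfl
  have h3 := Finset.sum_le_sum h1
  rw [Finset.sum_const, Finset.card_range, smul_eq_mul] at h3
  have := h3.trans h2
  rw [mul_comm] at this
  omega

variable [Fintype K]

theorem pos_spec (S : Finset ((K ⊕ (Fin m × Fin L)) × Fin 3))
    (hS : S.card < (m - 1) * (3 * L)) : pos S < 3 * L ∧ 1 < (miss S (pos S)).card :=
  Nat.sInf_mem (s := {P | P < 3 * L ∧ 1 < (miss S P).card}) (exists_pos S hS)

omit [Fintype K] in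
theorem miss_map (S : Finset ((K ⊕ (Fin m × Fin L)) × Fin 3)) (τ : Equiv.Perm (Fin m))
    (hτ : τ * τ = 1) (P P' : ℕ) (hP : P' ≤ P) :
    miss (S.map (tailPerm K L τ hτ P).toEmbedding) P' = miss S P' := by
  ext k
  simp only [miss, Finset.mem_filter, Finset.mem_univ, true_and, Finset.mem_map,
    Equiv.toEmbedding_apply, forall_exists_index, and_imp, forall_apply_eq_imp_iff₂]
  constructor
  · intro h x hx hk
    exact h x hx ((At_tailSwap τ P P' x k hP).2 hk)
  · intro h x hx hk
    exact h x hx ((At_tailSwap τ P P' x k hP).1 hk)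

theorem pos_map (S : Finset ((K ⊕ (Fin m × Fin L)) × Fin 3)) (τ : Equiv.Perm (Fin m))
    (hτ : τ * τ = 1) (hS : S.card < (m - 1) * (3 * L)) :
    pos (S.map (tailPerm K L τ hτ (pos S)).toEmbedding) = pos S := by
  have h1 := pos_spec S hS
  have h2 := pos_spec (S.map (tailPerm K L τ hτ (pos S)).toEmbedding)
    (by rw [Finset.card_map]; exact hS)
  have hle : pos (S.map (tailPerm K L τ hτ (pos S)).toEmbedding) ≤ pos S := by
    apply Nat.sInf_le
    refine ⟨h1.1, ?_⟩
    rw [miss_map S τ hτ _ _ le_rfl]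
    exact h1.2
  refine le_antisymm hle ?_
  apply Nat.sInf_le
  refine ⟨h2.1, ?_⟩
  have h3 := h2.2
  rw [miss_map S τ hτ _ _ hle] at h3
  exact h3

/-- The deck of `split (wArc A In Out L σ)` does not depend on `σ` if the part `K` admits all even
permutations of the wires. -/
theorem deck_eq (A : K → K → Prop) (In : K → Fin m → Prop) (Out : Fin m → K → Prop)
    (hsym : ∀ g : Equiv.Perm (Fin m), Equiv.Perm.sign g = 1 → ∃ φ : Equiv.Perm K,
      (∀ k k', A (φ k) (φ k') ↔ A k k') ∧ (∀ k i, In (φ k) (g i) ↔ In k i) ∧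
      (∀ a k, Out a (φ k) ↔ Out a k)) (hm : 2 ≤ m)
    (t : ℕ) (ht : t < (m - 1) * (3 * L)) (F : SimpleGraph (Fin t)) (σ : Equiv.Perm (Fin m)) :
    dc t (split (wArc A In Out L 1)) F = dc t (split (wArc A In Out L σ)) F := by
  classical
  -- the same sign
  have hsign : ∀ σ σ' : Equiv.Perm (Fin m), Equiv.Perm.sign σ = Equiv.Perm.sign σ' →
      dc t (split (wArc A In Out L σ)) F = dc t (split (wArc A In Out L σ')) F := by
    intro σ σ' h
    obtain ⟨φ, h1, h2, h3⟩ := hsym (σ'⁻¹ * σ) (by
      rw [Equiv.Perm.sign_mul, Equiv.Perm.sign_inv, h, Int.units_mul_self])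
    have hgs : ∀ i, σ' ((σ'⁻¹ * σ) i) = σ i := fun i => by simp
    obtain ⟨e⟩ := split_iso (Arc := wArc A In Out L σ) (Arc' := wArc A In Out L σ')
      (Equiv.sumCongr φ ((σ'⁻¹ * σ).prodCongr (Equiv.refl (Fin L)))) (by
        rintro (k | ⟨i, p⟩) (k' | ⟨j, q⟩)
        · exact h1 k k'
        · simp only [Equiv.sumCongr_apply, Sum.map_inl, Sum.map_inr, Equiv.prodCongr_apply,
            Prod.map_apply, Equiv.refl_apply, wArc, h2]
        · simp only [Equiv.sumCongr_apply, Sum.map_inl, Sum.map_inr, Equiv.prodCongr_apply,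
            Prod.map_apply, Equiv.refl_apply, wArc, hgs, h3]
        · simp only [Equiv.sumCongr_apply, Sum.map_inr, Equiv.prodCongr_apply,
            Prod.map_apply, Equiv.refl_apply, wArc, EmbeddingLike.apply_eq_iff_eq])
    exact dc_iso e t F
  set Q : Equiv.Perm (Fin m) → Finset ((K ⊕ (Fin m × Fin L)) × Fin 3) → Prop := fun σ S =>
    Nonempty ((split (wArc A In Out L σ)).induce (S : Set _) ≃g F) with hQ
  have hN : ∀ σ, (dc t (split (wArc A In Out L σ)) F : ℤ) =
      ∑ S ∈ Finset.powersetCard t Finset.univ, if Q σ S then 1 else 0 := by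
    intro σ
    rw [← Finset.sum_filter, Finset.sum_const, nsmul_eq_mul, mul_one]
    congr 1
    unfold dc
    rw [Nat.card_eq_fintype_card, Fintype.card_subtype]
    congr 1
    ext S
    simp [Finset.mem_powersetCard, hQ]
  -- the signed sum vanishes
  have hzero : ∑ σ : Equiv.Perm (Fin m), (Equiv.Perm.sign σ : ℤ) *
      (dc t (split (wArc A In Out L σ)) F : ℤ) = 0 := by
    simp_rw [hN, Finset.mul_sum]
    rw [← Finset.sum_product']
    refine Finset.sum_involution
      (fun a _ => (a.1 * sw (miss a.2 (pos a.2)),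
        a.2.map (tailPerm K L (sw (miss a.2 (pos a.2))) (sw_mul _) (pos a.2)).toEmbedding))
      ?_ ?_ ?_ ?_
    · rintro ⟨σ, S⟩ ha
      have hS : S.card = t := (Finset.mem_powersetCard.1 (Finset.mem_product.1 ha).2).2
      have hp := pos_spec S (by rw [hS]; exact ht)
      have hQQ : Q (σ * sw (miss S (pos S)))
          (S.map (tailPerm K L (sw (miss S (pos S))) (sw_mul _) (pos S)).toEmbedding) ↔ Q σ S := by
        obtain ⟨e⟩ := induce_iso (G := split (wArc A In Out L σ))
          (G' := split (wArc A In Out L (σ * sw (miss S (pos S)))))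
          (tailPerm K L (sw (miss S (pos S))) (sw_mul _) (pos S)) S (by
            intro x hx y hy
            refine adj_tailSwap A In Out σ _ (sw_mul _) _ hp.1 x y ?_ ?_
            · intro k hk
              apply sw_fix
              intro hmem
              exact (Finset.mem_filter.1 hmem).2 x hx hk
            · intro k hk
              apply sw_fix
              intro hmem
              exact (Finset.mem_filter.1 hmem).2 y hy hk)
        constructor
        · rintro ⟨f⟩
          exact ⟨e.trans f⟩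
        · rintro ⟨f⟩
          exact ⟨e.symm.trans f⟩
      simp only [Equiv.Perm.sign_mul, sw_sign _ hp.2, if_congr hQQ rfl rfl]
      push_cast
      ring
    · rintro ⟨σ, S⟩ ha _ h
      have hS : S.card = t := (Finset.mem_powersetCard.1 (Finset.mem_product.1 ha).2).2
      have hp := pos_spec S (by rw [hS]; exact ht)
      have h1 : σ * sw (miss S (pos S)) = σ := congrArg Prod.fst h
      have h2 : sw (miss S (pos S)) = 1 := by
        rw [← mul_left_cancel_iff (a := σ), h1, mul_one]
      have h3 := sw_sign _ hp.2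
      rw [h2, Equiv.Perm.sign_one] at h3
      exact absurd h3 (by decide)
    · rintro ⟨σ, S⟩ ha
      have hS : S.card = t := (Finset.mem_powersetCard.1 (Finset.mem_product.1 ha).2).2
      refine Finset.mem_product.2 ⟨Finset.mem_univ _, ?_⟩
      rw [Finset.mem_powersetCard]
      exact ⟨Finset.subset_univ _, by simp only [Finset.card_map]; exact hS⟩
    · rintro ⟨σ, S⟩ ha
      have hS : S.card = t := (Finset.mem_powersetCard.1 (Finset.mem_product.1 ha).2).2
      have h1 : pos (S.map (tailPerm K L (sw (miss S (pos S))) (sw_mul _) (pos S)).toEmbedding)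
          = pos S := pos_map S _ _ (by rw [hS]; exact ht)
      have h2 : miss (S.map (tailPerm K L (sw (miss S (pos S))) (sw_mul _) (pos S)).toEmbedding)
          (pos S) = miss S (pos S) := miss_map S _ _ _ _ le_rfl
      refine Prod.ext ?_ ?_
      · show σ * sw (miss S (pos S)) * sw (miss _ (pos _)) = σ
        rw [h1, h2, mul_assoc, sw_mul, mul_one]
      · show Finset.map _ (Finset.map _ S) = S
        rw [Finset.map_map]
        ext x
        simp only [Finset.mem_map, Function.Embedding.trans_apply, Equiv.toEmbedding_apply]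
        have h3 : ∀ y, (tailPerm K L (sw (miss (S.map (tailPerm K L (sw (miss S (pos S)))
            (sw_mul _) (pos S)).toEmbedding) (pos (S.map (tailPerm K L (sw (miss S (pos S)))
            (sw_mul _) (pos S)).toEmbedding)))) (sw_mul _) (pos (S.map (tailPerm K L
            (sw (miss S (pos S))) (sw_mul _) (pos S)).toEmbedding)))
            ((tailPerm K L (sw (miss S (pos S))) (sw_mul _) (pos S)) y) = y := by
          intro y
          show tailSwap L (sw (miss _ (pos _))) (pos _) (tailSwap L _ _ y) = y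
          rw [h1, h2]
          exact tailSwap_tailSwap _ (sw_mul _) _ y
        constructor
        · rintro ⟨y, hy, rfl⟩
          rw [h3]; exact hy
        · intro hx
          exact ⟨x, hx, h3 x⟩
  -- conclusion
  obtain ⟨a, b, hab⟩ : ∃ a b : Fin m, a ≠ b :=
    ⟨⟨0, by omega⟩, ⟨1, by omega⟩, by simp⟩
  set τ : Equiv.Perm (Fin m) := Equiv.swap a b with hτ
  have hτs : Equiv.Perm.sign τ = -1 := Equiv.Perm.sign_swap hab
  have h1 : ∑ σ : Equiv.Perm (Fin m), (Equiv.Perm.sign (σ * τ) : ℤ) *
      (dc t (split (wArc A In Out L (σ * τ))) F : ℤ) = 0 := by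
    rw [← hzero]
    exact Equiv.sum_comp (Equiv.mulRight τ) fun σ => (Equiv.Perm.sign σ : ℤ) *
      (dc t (split (wArc A In Out L σ)) F : ℤ)
  have h2 : ∀ σ : Equiv.Perm (Fin m), (Equiv.Perm.sign σ : ℤ) *
      (dc t (split (wArc A In Out L σ)) F : ℤ) + (Equiv.Perm.sign (σ * τ) : ℤ) *
      (dc t (split (wArc A In Out L (σ * τ))) F : ℤ) =
      (dc t (split (wArc A In Out L 1)) F : ℤ) - (dc t (split (wArc A In Out L τ)) F : ℤ) := by
    intro σ
    rcases Int.units_eq_one_or (Equiv.Perm.sign σ) with h | h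
    · rw [hsign σ 1 (by rw [h, Equiv.Perm.sign_one]),
        hsign (σ * τ) τ (by rw [Equiv.Perm.sign_mul, h, one_mul]), Equiv.Perm.sign_mul, h, hτs]
      simp
      ring
    · rw [hsign σ τ (by rw [h, hτs]),
        hsign (σ * τ) 1 (by rw [Equiv.Perm.sign_mul, h, hτs, Equiv.Perm.sign_one]; simp),
        Equiv.Perm.sign_mul, h, hτs]
      simp
      ring
  have h3 : ∑ _σ : Equiv.Perm (Fin m),
      ((dc t (split (wArc A In Out L 1)) F : ℤ) - (dc t (split (wArc A In Out L τ)) F : ℤ)) = 0 := by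
    rw [← Finset.sum_congr rfl fun σ _ => h2 σ, Finset.sum_add_distrib, hzero, h1, add_zero]
  rw [Finset.sum_const, nsmul_eq_mul] at h3
  have h4 : ((Finset.univ : Finset (Equiv.Perm (Fin m))).card : ℤ) ≠ 0 := by
    rw [Finset.card_univ]
    exact_mod_cast Fintype.card_ne_zero
  have h5 := (mul_eq_zero.1 h3).resolve_left h4
  have h6 : dc t (split (wArc A In Out L 1)) F = dc t (split (wArc A In Out L τ)) F := by
    omega
  rcases Int.units_eq_one_or (Equiv.Perm.sign σ) with h | h
  · exact hsign 1 σ (by rw [h, Equiv.Perm.sign_one])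
  · rw [h6]; exact hsign τ σ (by rw [h, hτs])

end choice

end Pool.Agent.R25
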