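import Mathlib
import Pool.Agent.R25.HamDeck

/-!
# The skeleton

The part `K` has two vertices `s`, `t` and, for every even permutation `π` and every `a`, three cells
`(π,a,0) ⇄ (π,a,1) ⇄ (π,a,2)`. The digraph with wiring `σ` has a Hamilton cycle iff `σ` is even.
-/

namespace Pool.Agent.R25

open SimpleGraph Equiv

/-- Vertices of the skeleton. -/
abbrev KD (M : ℕ) : Type := Bool ⊕ (alternatingGroup (Fin (M + 1)) × Fin (M + 1) × Fin 3)

/-- Inner arcs of the skeleton. -/
def kA (M : ℕ) : KD M → KD M → Prop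
  | .inl false, .inr x => x.2.1 = 0 ∧ x.2.2 = 0
  | .inl true, .inr x => x.2.1 = 0 ∧ x.2.2 = 2
  | .inr x, .inl false => x.2.1 = Fin.last M ∧ x.2.2 = 0
  | .inr x, .inr y =>
    (x.1 = y.1 ∧ x.2.1 = y.2.1 ∧ (x.2.2.val + 1 = y.2.2.val ∨ y.2.2.val + 1 = x.2.2.val)) ∨
    (x.1 = y.1 ∧ x.2.1.val + 1 = y.2.1.val ∧ x.2.2 = 0 ∧ y.2.2 = 2) ∨
    (x.2.1 = Fin.last M ∧ y.2.1 = 0 ∧ x.2.2 = 0 ∧ y.2.2 = 2)
  | _, _ => False

/-- Arcs from the skeleton to the heads of the wires. -/
def kIn (M : ℕ) : KD M → Fin (M + 1) → Prop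
  | .inl _, _ => False
  | .inr x, i => x.2.2 = 2 ∧ x.1.1 x.2.1 = i

/-- Arcs from the tails of the wires to the skeleton. -/
def kOut (M : ℕ) : Fin (M + 1) → KD M → Prop
  | _, .inl false => False
  | b, .inl true => b = Fin.last M
  | b, .inr x => x.2.2 = 0 ∧ b.val + 1 = x.2.1.val

theorem k_sym (M : ℕ) (g : Perm (Fin (M + 1))) (hg : Perm.sign g = 1) :
    ∃ φ : Perm (KD M), (∀ k k', kA M (φ k) (φ k') ↔ kA M k k') ∧
      (∀ k i, kIn M (φ k) (g i) ↔ kIn M k i) ∧ (∀ a k, kOut M a (φ k) ↔ kOut M a k) := by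
  have hg' : g ∈ alternatingGroup (Fin (M + 1)) := Perm.mem_alternatingGroup.2 hg
  refine ⟨Equiv.sumCongr (Equiv.refl _) ((Equiv.mulLeft ⟨g, hg'⟩).prodCongr (Equiv.refl _)),
    ?_, ?_, ?_⟩
  · rintro ((_ | _) | x) ((_ | _) | y) <;> simp [kA]
  · rintro (k | x) i
    · simp [kIn]
    · simp [kIn]
  · rintro a ((_ | _) | x)
    · simp [kOut]
    · simp [kOut]
    · simp [kOut]

/-- The digraph. -/
abbrev D (M L : ℕ) (σ : Perm (Fin (M + 1))) :
    (KD M ⊕ (Fin (M + 1) × Fin L)) → (KD M ⊕ (Fin (M + 1) × Fin L)) → Prop :=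
  wArc (kA M) (kIn M) (kOut M) L σ

section nonham

variable {M L : ℕ}

/-- a cell -/
abbrev cell (L : ℕ) {M : ℕ} (π : alternatingGroup (Fin (M + 1))) (a : Fin (M + 1)) (j : Fin 3) :
    KD M ⊕ (Fin (M + 1) × Fin L) := .inl (.inr (π, a, j))

/-- a wire vertex -/
abbrev wire {M L : ℕ} (i : Fin (M + 1)) (p : Fin L) : KD M ⊕ (Fin (M + 1) × Fin L) := .inr (i, p)

/-- start -/
abbrev st (M L : ℕ) : KD M ⊕ (Fin (M + 1) × Fin L) := .inl (.inl false)

/-- end -/
abbrev tt (M L : ℕ) : KD M ⊕ (Fin (M + 1) × Fin L) := .inl (.inl true)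

theorem sign_of_ham (hL : 1 ≤ L) (hM : 1 ≤ M) (σ : Perm (Fin (M + 1)))
    (f : (KD M ⊕ (Fin (M + 1) × Fin L)) → (KD M ⊕ (Fin (M + 1) × Fin L)))
    (hinj : Function.Injective f) (harc : ∀ v, D M L σ v (f v))
    (htr : ∀ B : Set (KD M ⊕ (Fin (M + 1) × Fin L)), B.Nonempty → (∀ v ∈ B, f v ∈ B) →
      B = Set.univ) : Perm.sign σ = 1 := by
  classical
  have hsurj : Function.Surjective f := Finite.injective_iff_surjective.1 hinj
  -- no 2-cycles
  have h2 : ∀ u v, f u = v → f v = u → False := by
    intro u v huv hvu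
    have h := htr {u, v} ⟨u, by simp⟩ (by
      rintro w (rfl | rfl)
      · rw [huv]; simp
      · rw [hvu]; simp)
    have h1 : st M L ∈ ({u, v} : Set _) := by rw [h]; trivial
    have h3 : tt M L ∈ ({u, v} : Set _) := by rw [h]; trivial
    have h4 : cell L 1 0 0 ∈ ({u, v} : Set (KD M ⊕ (Fin (M + 1) × Fin L))) := by rw [h]; trivial
    have hst : st M L ≠ tt M L := by simp
    have hsc : st M L ≠ cell L 1 0 0 := by simp
    have htc : tt M L ≠ cell L 1 0 0 := by simp
    rcases h1 with h1 | h1 <;> rcases h3 with h3 | h3 <;> rcases h4 with h4 | h4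
    · exact hst (h1.trans h3.symm)
    · exact hst (h1.trans h3.symm)
    · exact hsc (h1.trans h4.symm)
    · exact htc (h3.trans h4.symm)
    · exact htc (h3.trans h4.symm)
    · exact hsc (h1.trans h4.symm)
    · exact hst (h1.trans h3.symm)
    · exact hst (h1.trans h3.symm)
  -- middle cells
  have hf1 : ∀ π a, f (cell L π a 1) = cell L π a 0 ∨ f (cell L π a 1) = cell L π a 2 := by
    intro π a
    have h := harc (cell L π a 1)
    rcases hv : f (cell L π a 1) with ((_ | _) | ⟨π', a', j'⟩) | ⟨i, p⟩ <;> rw [hv] at h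
    · exact absurd h.2 (by simp)
    · exact h.elim
    · rcases h with h | h | h
      · obtain ⟨h3, h4, h5⟩ := h
        simp only at h3 h4 h5
        subst h3 h4
        rcases h5 with h5 | h5
        · right
          have : j' = 2 := by ext; simp at h5 ⊢; omega
          rw [this]
        · left
          have : j' = 0 := by ext; simp at h5 ⊢; omega
          rw [this]
      · exact absurd h.2.2.1 (by simp)
      · exact absurd h.2.2.1 (by simp)
    · exact absurd h.1.1 (by simp)
  have hb1 : ∀ π a, f (cell L π a 0) = cell L π a 1 ∨ f (cell L π a 2) = cell L π a 1 := by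
    intro π a
    obtain ⟨u, hu⟩ := hsurj (cell L π a 1)
    have h := harc u
    rw [hu] at h
    rcases u with ((_ | _) | ⟨π', a', j'⟩) | ⟨i, p⟩
    · exact absurd h.2 (by simp)
    · exact absurd h.2 (by simp)
    · rcases h with h | h | h
      · obtain ⟨h3, h4, h5⟩ := h
        simp only at h3 h4 h5
        subst h3 h4
        rcases h5 with h5 | h5
        · left
          have : j' = 0 := by ext; simp at h5 ⊢; omega
          rw [this] at hu
          exact hu
        · right
          have : j' = 2 := by ext; simp at h5 ⊢; omega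
          rw [this] at hu
          exact hu
      · exact absurd h.2.2.2 (by simp)
      · exact absurd h.2.2.2 (by simp)
    · exact absurd h.2.1 (by simp)
  -- forward or reverse
  have hdich : ∀ π a, (f (cell L π a 0) = cell L π a 1 ∧ f (cell L π a 1) = cell L π a 2) ∨
      (f (cell L π a 2) = cell L π a 1 ∧ f (cell L π a 1) = cell L π a 0) := by
    intro π a
    rcases hf1 π a with h | h
    · right
      refine ⟨?_, h⟩
      rcases hb1 π a with h' | h'
      · exact (h2 _ _ h h').elim
      · exact h'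
    · left
      refine ⟨?_, h⟩
      rcases hb1 π a with h' | h'
      · exact h'
      · exact (h2 _ _ h h').elim
  -- the start
  obtain ⟨π0, hπ0⟩ : ∃ π0, f (st M L) = cell L π0 0 0 := by
    have h := harc (st M L)
    rcases hv : f (st M L) with ((_ | _) | ⟨π', a', j'⟩) | ⟨i, p⟩ <;> rw [hv] at h
    · exact h.elim
    · exact h.elim
    · obtain ⟨h3, h4⟩ := h
      simp only at h3 h4
      subst h3 h4
      exact ⟨π', rfl⟩
    · exact h.1.elim
  -- out-arcs of the cell 0
  have hf0 : ∀ π (a b : Fin (M + 1)), a.val + 1 = b.val →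
      f (cell L π a 0) = cell L π a 1 ∨ f (cell L π a 0) = cell L π b 2 := by
    intro π a b hab
    have hal : a ≠ Fin.last M := by
      rintro rfl
      have := b.2
      simp at hab
      omega
    have h := harc (cell L π a 0)
    rcases hv : f (cell L π a 0) with ((_ | _) | ⟨π', a', j'⟩) | ⟨i, p⟩ <;> rw [hv] at h
    · exact absurd h.1 hal
    · exact h.elim
    · rcases h with h | h | h
      · obtain ⟨h3, h4, h5⟩ := h
        simp only at h3 h4 h5
        subst h3 h4
        left
        have : j' = 1 := by ext; simp at h5 ⊢; omega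
        rw [this]
      · obtain ⟨h3, h4, -, h6⟩ := h
        simp only at h3 h4 h6
        subst h3 h6
        right
        have : a' = b := by ext; omega
        rw [this]
      · exact absurd h.1 hal
    · exact absurd h.1.1 (by simp)
  -- forward at `b` implies forward at `a = b - 1`
  have hdown : ∀ π (a b : Fin (M + 1)), a.val + 1 = b.val →
      f (cell L π b 1) = cell L π b 2 → f (cell L π a 1) = cell L π a 2 := by
    intro π a b hab hb
    rcases hdich π a with h | h
    · exact h.2
    · exfalso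
      rcases hf0 π a b hab with h' | h'
      · have := hinj (h'.trans h.1.symm)
        simp at this
      · have := hinj (h'.trans hb.symm)
        simp at this
  have hfw0 : ∀ π, f (cell L π 0 1) = cell L π 0 2 → π = π0 := by
    intro π hπ
    obtain ⟨u, hu⟩ := hsurj (cell L π 0 0)
    have h := harc u
    rw [hu] at h
    rcases u with ((_ | _) | ⟨π', a', j'⟩) | ⟨i, p⟩
    · rw [hπ0] at hu
      have := congrArg (fun x => x) hu
      simp only [Sum.inl.injEq, Sum.inr.injEq, Prod.mk.injEq, and_true] at this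
      exact this.symm
    · exact absurd h.2 (by simp)
    · rcases h with h | h | h
      · obtain ⟨h3, h4, h5⟩ := h
        simp only at h3 h4 h5
        subst h3 h4
        have : j' = 1 := by ext; simp at h5 ⊢; omega
        rw [this, hπ] at hu
        simp at hu
      · exact absurd h.2.2.2 (by simp)
      · exact absurd h.2.2.2 (by simp)
    · exact absurd h.2.2 (by simp)
  have hfw : ∀ π (a : Fin (M + 1)), f (cell L π a 1) = cell L π a 2 → π = π0 := by
    intro π a
    obtain ⟨n, hn⟩ := a
    induction n with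
    | zero => exact hfw0 π
    | succ n ih => exact fun h => ih (by omega) (hdown π ⟨n, by omega⟩ ⟨n + 1, hn⟩ rfl h)
  -- the tails of the wires
  let last : Fin L := ⟨L - 1, by omega⟩
  have htail : ∀ i, σ i ≠ Fin.last M → ∃ a : Fin (M + 1), (σ i).val + 1 = a.val ∧
      f (wire i last) = cell L π0 a 0 ∧ f (cell L π0 a 0) = cell L π0 a 1 ∧
      f (cell L π0 a 1) = cell L π0 a 2 := by
    intro i hi
    have h := harc (wire i last)
    rcases hv : f (wire i last) with ((_ | _) | ⟨π', a', j'⟩) | ⟨i', p⟩ <;> rw [hv] at h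
    · exact h.2.elim
    · exact absurd h.2 hi
    · obtain ⟨-, h3, h4⟩ := h
      simp only at h3 h4
      subst h3
      have hnr : f (cell L π' a' 1) ≠ cell L π' a' 0 := by
        intro h5
        have := hinj (h5.trans hv.symm)
        simp at this
      have hd : f (cell L π' a' 0) = cell L π' a' 1 ∧ f (cell L π' a' 1) = cell L π' a' 2 := by
        rcases hdich π' a' with h | h
        · exact h
        · exact absurd h.2 hnr
      have hπ : π' = π0 := hfw π' a' hd.2
      subst hπ
      exact ⟨a', h4, rfl, hd.1, hd.2⟩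
    · obtain ⟨-, h4⟩ := h
      have := p.2
      simp only [last] at h4
      omega
  have hwire : ∀ i (p q : Fin L), p.val + 1 = q.val → f (wire i p) = wire i q := by
    intro i p q hpq
    have h := harc (wire i p)
    have hq := q.2
    rcases hv : f (wire i p) with ((_ | _) | ⟨π', a', j'⟩) | ⟨i', p'⟩ <;> rw [hv] at h
    · exact h.2.elim
    · have := h.1; simp only at this; omega
    · have := h.1; simp only at this; omega
    · obtain ⟨h3, h4⟩ := h
      simp only at h3 h4
      subst h3
      have : p' = q := by ext; omega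
      rw [this]
  have hf2 : ∀ a, f (cell L π0 a 0) = cell L π0 a 1 →
      f (cell L π0 a 2) = wire (π0.1 a) ⟨0, by omega⟩ := by
    intro a ha
    have h := harc (cell L π0 a 2)
    rcases hv : f (cell L π0 a 2) with ((_ | _) | ⟨π', a', j'⟩) | ⟨i, p⟩ <;> rw [hv] at h
    · exact absurd h.2 (by simp)
    · exact h.elim
    · exfalso
      rcases h with h | h | h
      · obtain ⟨h3, h4, h5⟩ := h
        simp only at h3 h4 h5
        subst h3 h4
        have : j' = 1 := by ext; simp at h5 ⊢; omega
        rw [this] at hv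
        have := hinj (hv.trans ha.symm)
        simp at this
      · exact absurd h.2.2.1 (by simp)
      · exact absurd h.2.2.1 (by simp)
    · obtain ⟨⟨-, h3⟩, h4⟩ := h
      simp only at h3 h4
      subst h3
      have : p = ⟨0, by omega⟩ := by ext; exact h4
      rw [this]
  -- the next-wire permutation
  set N : Perm (Fin (M + 1)) := π0.1 * finRotate (M + 1) * σ with hN
  have hclosed : ∀ B : Set (Fin (M + 1)), B.Nonempty → (∀ i ∈ B, N i ∈ B) →
      σ.symm (Fin.last M) ∈ B := by
    intro B hB hcl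
    by_contra hcon
    have hB' : ∀ i ∈ B, σ i ≠ Fin.last M := by
      intro i hi h
      apply hcon
      rw [← h]; simpa using hi
    obtain ⟨b, hb⟩ := hB
    have h := htr {v | (∃ i ∈ B, ∃ p, v = wire i p) ∨
      (∃ i ∈ B, ∃ a : Fin (M + 1), (σ i).val + 1 = a.val ∧ ∃ j, v = cell L π0 a j)}
      ⟨wire b last, Or.inl ⟨b, hb, last, rfl⟩⟩ (by
        rintro v (⟨i, hi, p, rfl⟩ | ⟨i, hi, a, ha, j, rfl⟩)
        · by_cases hp : p.val + 1 < L
          · left
            exact ⟨i, hi, ⟨p.val + 1, hp⟩, hwire i p ⟨p.val + 1, hp⟩ rfl⟩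
          · right
            have hpl : p = last := by
              ext
              have := p.2
              show p.val = L - 1
              omega
            obtain ⟨a, ha, h1, -, -⟩ := htail i (hB' i hi)
            exact ⟨i, hi, a, ha, 0, by rw [hpl]; exact h1⟩
        · obtain ⟨a', ha', h1, h3, h4⟩ := htail i (hB' i hi)
          have haa : a' = a := by ext; omega
          subst haa
          have hj : j = 0 ∨ j = 1 ∨ j = 2 := by
            have : ∀ j : Fin 3, j = 0 ∨ j = 1 ∨ j = 2 := by decide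
            exact this j
          rcases hj with rfl | rfl | rfl
          · right; exact ⟨i, hi, a', ha', 1, h3⟩
          · right; exact ⟨i, hi, a', ha', 2, h4⟩
          · left
            refine ⟨N i, hcl i hi, ⟨0, by omega⟩, ?_⟩
            show f _ = _
            rw [hf2 a' h3]
            have : N i = π0.1 a' := by
              simp only [hN, Perm.mul_apply]
              congr 1
              have hlt : (σ i).val < M := by have := a'.2; omega
              have := finRotate_of_lt hlt
              simp only [Fin.eta] at this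
              rw [this]
              ext
              exact ha'
            rw [this])
    have h1 : st M L ∈ (Set.univ : Set (KD M ⊕ (Fin (M + 1) × Fin L))) := trivial
    rw [← h] at h1
    rcases h1 with ⟨i, -, p, h1⟩ | ⟨i, -, a, -, j, h1⟩
    · simp at h1
    · simp at h1
  have hsame : ∀ i j, N.SameCycle i j := by
    have h1 : ∀ i, N.SameCycle i (σ.symm (Fin.last M)) := by
      intro i
      refine hclosed {j | N.SameCycle i j} ⟨i, Perm.SameCycle.refl _ _⟩ ?_
      intro j hj
      exact hj.apply_right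
    intro i j
    exact (h1 i).trans (h1 j).symm
  have hne : ∀ i, N i ≠ i := by
    intro i hi
    have h1 : ∀ j, j = i := by
      intro j
      exact ((hsame i j).eq_of_left hi).symm
    have h3 := h1 0
    have h4 := h1 (Fin.last M)
    have h5 : (0 : Fin (M + 1)) = Fin.last M := h3.trans h4.symm
    have h6 := congrArg Fin.val h5
    simp at h6
    omega
  have hcyc : N.IsCycle := ⟨0, hne 0, fun y _ => hsame 0 y⟩
  have hsup : N.support = Finset.univ := by
    ext i
    simp [hne i]
  have hs1 := hcyc.sign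
  rw [hsup, Finset.card_univ, Fintype.card_fin] at hs1
  have hs2 : Perm.sign N = Perm.sign π0.1 * Perm.sign (finRotate (M + 1)) * Perm.sign σ := by
    rw [hN, Perm.sign_mul, Perm.sign_mul]
  rw [hs2, sign_finRotate, Perm.mem_alternatingGroup.1 π0.2, one_mul, pow_succ,
    Nat.add_sub_cancel] at hs1
  have hs3 : (-1 : ℤˣ) ^ M * Perm.sign σ = (-1 : ℤˣ) ^ M * 1 := by
    rw [hs1]; simp
  exact mul_left_cancel hs3

end nonham

section ham

variable {M L : ℕ}

open Classical in
/-- The Hamilton cycle for the identity wiring. -/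
noncomputable def hamF (hL : 1 ≤ L) (ρ : Perm (alternatingGroup (Fin (M + 1)))) :
    (KD M ⊕ (Fin (M + 1) × Fin L)) → (KD M ⊕ (Fin (M + 1) × Fin L))
  | .inl (.inl false) => cell L 1 0 0
  | .inl (.inl true) => cell L (ρ 1) 0 2
  | .inl (.inr x) =>
    if x.1 = 1 then
      (if x.2.2 = 0 then cell L 1 x.2.1 1 else if x.2.2 = 1 then cell L 1 x.2.1 2
        else wire x.2.1 ⟨0, hL⟩)
    else
      (if x.2.2 = 2 then cell L x.1 x.2.1 1 else if x.2.2 = 1 then cell L x.1 x.2.1 0
        else if h : x.2.1.val + 1 < M + 1 then cell L x.1 ⟨x.2.1.val + 1, h⟩ 2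
        else if ρ x.1 = 1 then st M L else cell L (ρ x.1) 0 2)
  | .inr x =>
    if h : x.2.val + 1 < L then wire x.1 ⟨x.2.val + 1, h⟩
    else if h : x.1.val + 1 < M + 1 then cell L 1 ⟨x.1.val + 1, h⟩ 0 else tt M L

theorem ham_of_one (hL : 1 ≤ L) (hM : 2 ≤ M) :
    ∃ (f : (KD M ⊕ (Fin (M + 1) × Fin L)) → (KD M ⊕ (Fin (M + 1) × Fin L)))
      (s : KD M ⊕ (Fin (M + 1) × Fin L)),
      (∀ v, D M L 1 v (f v)) ∧ (∀ v, Reach f s v) ∧ ∃ v, f v = s := by
  classical
  -- a cyclic permutation of the even permutations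
  obtain ⟨ρ, hρ, -⟩ := Finset.exists_cycleOn (Finset.univ : Finset (alternatingGroup (Fin (M + 1))))
  have hcard : 1 < Fintype.card (alternatingGroup (Fin (M + 1))) := by
    have : Nontrivial (Fin (M + 1)) := Fin.nontrivial_iff_two_le.2 (by omega)
    have h1 := two_mul_card_alternatingGroup (α := Fin (M + 1))
    rw [Fintype.card_perm, Fintype.card_fin] at h1
    have h2 : Nat.factorial 3 ≤ Nat.factorial (M + 1) := Nat.factorial_le (by omega)
    have h3 : Nat.factorial 3 = 6 := rfl
    omega
  have hρne : ρ 1 ≠ 1 := by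
    intro h
    obtain ⟨x, hx⟩ := Fintype.exists_ne_of_one_lt_card hcard 1
    obtain ⟨n, -, hn⟩ := hρ.exists_pow_eq (Finset.mem_univ 1) (Finset.mem_univ x)
    apply hx
    rw [← hn]
    clear hn
    induction n with
    | zero => rfl
    | succ n ih => rw [pow_succ, Perm.mul_apply, h, ih]
  set f := hamF (M := M) (L := L) hL ρ with hf
  -- values
  have f_st : f (st M L) = cell L 1 0 0 := rfl
  have f_tt : f (tt M L) = cell L (ρ 1) 0 2 := rfl
  have f_a0 : ∀ a, f (cell L 1 a 0) = cell L 1 a 1 := fun a => by simp [hf, hamF]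
  have f_a1 : ∀ a, f (cell L 1 a 1) = cell L 1 a 2 := fun a => by simp [hf, hamF]
  have f_a2 : ∀ a, f (cell L 1 a 2) = wire a ⟨0, hL⟩ := fun a => by simp [hf, hamF]
  have f_p2 : ∀ π a, π ≠ 1 → f (cell L π a 2) = cell L π a 1 := fun π a h => by
    simp [hf, hamF, h]
  have f_p1 : ∀ π a, π ≠ 1 → f (cell L π a 1) = cell L π a 0 := fun π a h => by
    simp [hf, hamF, h]
  have f_p0 : ∀ π (a : Fin (M + 1)) (h : a.val + 1 < M + 1), π ≠ 1 →
      f (cell L π a 0) = cell L π ⟨a.val + 1, h⟩ 2 := fun π a h h' => by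
    simp only [hf, hamF, h', if_false]
    rw [dif_pos h]
    simp
  have f_pl : ∀ π, π ≠ 1 → ρ π ≠ 1 → f (cell L π (Fin.last M) 0) = cell L (ρ π) 0 2 :=
    fun π h h' => by
      simp [hf, hamF, h, h']
  have f_ps : ∀ π, π ≠ 1 → ρ π = 1 → f (cell L π (Fin.last M) 0) = st M L :=
    fun π h h' => by
      simp [hf, hamF, h, h']
  have f_w : ∀ i (p : Fin L) (h : p.val + 1 < L), f (wire i p) = wire i ⟨p.val + 1, h⟩ :=
    fun i p h => by
      simp only [hf, hamF]
      rw [dif_pos h]
  have f_wl : ∀ (i : Fin (M + 1)) (p : Fin L) (_ : ¬ p.val + 1 < L) (h : i.val + 1 < M + 1),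
      f (wire i p) = cell L 1 ⟨i.val + 1, h⟩ 0 :=
    fun i p h h' => by
      simp only [hf, hamF]
      rw [dif_neg h, dif_pos h']
  have f_wt : ∀ (i : Fin (M + 1)) (p : Fin L) (_ : ¬ p.val + 1 < L) (_ : ¬ i.val + 1 < M + 1),
      f (wire i p) = tt M L :=
    fun i p h h' => by
      simp only [hf, hamF]
      rw [dif_neg h, dif_neg h']
  have h3 : ∀ j : Fin 3, j = 0 ∨ j = 1 ∨ j = 2 := by decide
  refine ⟨f, st M L, ?_, ?_, ?_⟩
  · -- arcs
    rintro (((_ | _) | ⟨π, a, j⟩) | ⟨i, p⟩)
    · exact ⟨rfl, rfl⟩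
    · exact ⟨rfl, rfl⟩
    · by_cases hπ : π = 1
      · subst hπ
        rcases h3 j with rfl | rfl | rfl
        · rw [f_a0]; exact Or.inl ⟨rfl, rfl, Or.inl rfl⟩
        · rw [f_a1]; exact Or.inl ⟨rfl, rfl, Or.inl rfl⟩
        · rw [f_a2]; exact ⟨⟨rfl, rfl⟩, rfl⟩
      · rcases h3 j with rfl | rfl | rfl
        · by_cases ha : a.val + 1 < M + 1
          · rw [f_p0 π a ha hπ]; exact Or.inr (Or.inl ⟨rfl, rfl, rfl, rfl⟩)
          · have hal : a = Fin.last M := by
              ext; have := a.2; simp only [Fin.val_last]; omega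
            subst hal
            by_cases hρπ : ρ π = 1
            · rw [f_ps π hπ hρπ]; exact ⟨rfl, rfl⟩
            · rw [f_pl π hπ hρπ]; exact Or.inr (Or.inr ⟨rfl, rfl, rfl, rfl⟩)
        · rw [f_p1 π a hπ]; exact Or.inl ⟨rfl, rfl, Or.inr rfl⟩
        · rw [f_p2 π a hπ]; exact Or.inl ⟨rfl, rfl, Or.inr rfl⟩
    · by_cases hp : p.val + 1 < L
      · rw [f_w i p hp]; exact ⟨rfl, rfl⟩
      · have hp' : p.val + 1 = L := by have := p.2; omega
        by_cases hi : i.val + 1 < M + 1
        · rw [f_wl i p hp hi]; exact ⟨hp', rfl, rfl⟩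
        · rw [f_wt i p hp hi]
          refine ⟨hp', ?_⟩
          show i = Fin.last M
          ext; have := i.2; simp only [Fin.val_last]; omega
  · -- reachability
    have hw : ∀ i, Reach f (st M L) (wire i ⟨0, hL⟩) → ∀ p, Reach f (st M L) (wire i p) := by
      rintro i h ⟨p, hp⟩
      induction p with
      | zero => exact h
      | succ p ih => exact (ih (by omega)).step' (f_w i ⟨p, by omega⟩ hp)
    have ha : ∀ a : Fin (M + 1), Reach f (st M L) (cell L 1 a 0) := by
      rintro ⟨a, ha⟩
      induction a with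
      | zero => exact (Reach.refl f _).step' f_st
      | succ a ih =>
        have h1 := ((((ih (by omega)).step' (f_a0 _)).step' (f_a1 _)).step' (f_a2 _))
        have h2 := hw _ h1 ⟨L - 1, by omega⟩
        exact h2.step' (f_wl ⟨a, by omega⟩ ⟨L - 1, by omega⟩ (by simp only; omega) ha)
    have hwr : ∀ i p, Reach f (st M L) (wire i p) := fun i =>
      hw i ((((ha i).step' (f_a0 _)).step' (f_a1 _)).step' (f_a2 _))
    have ht : Reach f (st M L) (tt M L) :=
      (hwr (Fin.last M) ⟨L - 1, by omega⟩).step'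
        (f_wt _ _ (by simp only; omega) (by simp))
    have hrow : ∀ π, π ≠ 1 → Reach f (st M L) (cell L π 0 2) →
        ∀ a : Fin (M + 1), Reach f (st M L) (cell L π a 2) := by
      rintro π hπ h ⟨a, ha⟩
      induction a with
      | zero => exact h
      | succ a ih =>
        exact (((ih (by omega)).step' (f_p2 π _ hπ)).step' (f_p1 π _ hπ)).step'
          (f_p0 π ⟨a, by omega⟩ ha hπ)
    have hpow : ∀ n : ℕ, (∀ k, 1 ≤ k → k ≤ n + 1 → (ρ ^ k) 1 ≠ 1) →
        Reach f (st M L) (cell L ((ρ ^ (n + 1)) 1) 0 2) := by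
      intro n
      induction n with
      | zero => intro _; exact ht.step' f_tt
      | succ n ih =>
        intro h
        have h1 := ih fun k hk hk' => h k hk (by omega)
        have hne := h (n + 1) (by omega) (by omega)
        have hne2 := h (n + 2) (by omega) (by omega)
        have h2 : ρ ((ρ ^ (n + 1)) 1) = (ρ ^ (n + 2)) 1 := by
          rw [← Perm.mul_apply, ← pow_succ']
        have h4 := ((hrow _ hne h1 (Fin.last M)).step' (f_p2 _ _ hne)).step' (f_p1 _ _ hne)
        have h5 := h4.step' (f_pl _ hne (by rw [h2]; exact hne2))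
        rwa [h2] at h5
    have hpas : ∀ π, π ≠ 1 → Reach f (st M L) (cell L π 0 2) := by
      intro π hπ
      have hex : ∃ n, (ρ ^ n) 1 = π := by
        obtain ⟨n, -, hn⟩ := hρ.exists_pow_eq (Finset.mem_univ 1) (Finset.mem_univ π)
        exact ⟨n, hn⟩
      have hspec := Nat.find_spec hex
      have hmin := fun k => Nat.find_min hex (m := k)
      generalize Nat.find hex = n at hspec hmin
      cases n with
      | zero => exact absurd hspec.symm hπ
      | succ n =>
        rw [← hspec]
        apply hpow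
        intro k hk hk' h1
        apply hmin (n + 1 - k) (by omega)
        have : (ρ ^ (n + 1)) 1 = (ρ ^ (n + 1 - k)) ((ρ ^ k) 1) := by
          rw [← Perm.mul_apply, ← pow_add, Nat.sub_add_cancel hk']
        rw [h1] at this
        rw [← this, hspec]
    rintro (((_ | _) | ⟨π, a, j⟩) | ⟨i, p⟩)
    · exact Reach.refl f _
    · exact ht
    · by_cases hπ : π = 1
      · subst hπ
        rcases h3 j with rfl | rfl | rfl
        · exact ha a
        · exact (ha a).step' (f_a0 _)
        · exact ((ha a).step' (f_a0 _)).step' (f_a1 _)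
      · have h := hrow π hπ (hpas π hπ) a
        rcases h3 j with rfl | rfl | rfl
        · exact (h.step' (f_p2 π _ hπ)).step' (f_p1 π _ hπ)
        · exact h.step' (f_p2 π _ hπ)
        · exact h
    · exact hwr i p
  · refine ⟨cell L (ρ.symm 1) (Fin.last M) 0, f_ps _ ?_ (by simp)⟩
    intro h
    apply hρne
    have h1 := congrArg ρ h
    rw [Equiv.apply_symm_apply] at h1
    exact h1.symm

end ham

end Pool.Agent.R25
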